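import Pool.Agent.Helper89_RK.Fin

/-!
# Learning DNF formulas in which every variable occurs in few short terms

For every constant `k` there is a polynomial-time algorithm which learns, from uniform random
examples only, all DNF formulas in which every variable occurs (negated or not) in at most `k`
terms of logarithmic length. In particular all read-`k` DNF formulas.
-/

namespace Pool.Agent.Results.MP_cba12a_lc.ReadKShortTerms

open Finset Turing Pool.Agent.NPC

/-- A function between types coded by bit strings is computable in polynomial time: some Turing
machine (in the sense of Mathlib) maps the code of every `a` to the code of `f a`, in polynomially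
many steps. -/
def PolyFn {α β : Type} [TEnc α] [TEnc β] (f : α → β) : Prop :=
  Nonempty (TM2ComputableInPolyTime (bits : α → List Bool) (bits : β → List Bool) f)

/-- A hypothesis is a DNF formula, given as a list of terms; a term is a list of literals, and the
literal `(i, b)` says that the bit number `i` of the string `x` is `b`. This is its value at the
string `x`. -/
def evalDNF (h : List (List (ℕ × Bool))) (x : List Bool) : Bool :=
  h.any (fun σ => σ.all (fun l => x[l.1]? == some l.2))

/-- The target is a DNF formula in `n` variables, given as a finite set of terms; a term is a finite
set of literals, and the literal `(i, b)` says that `x i = b`. This is its value at the point `x`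
of the cube. -/
def val {n : ℕ} (F : Finset (Finset (Fin n × Bool))) (x : Fin n → Bool) : Bool :=
  decide (∃ t ∈ F, ∀ m ∈ t, x m.1 = m.2)

/-- The list of the labelled examples `(x, F x)` for the points `x = S 0, ..., S (N - 1)`. -/
def sample {n N : ℕ} (F : Finset (Finset (Fin n × Bool))) (S : Fin N → Fin n → Bool) :
    List (List Bool × Bool) := List.ofFn (fun j => (List.ofFn (S j), val F (S j)))

/-- For every `k` there are a constant `C` and a learner `L` which is computable in polynomial time
and outputs DNF formulas (which can be evaluated in polynomial time), such that the following
holds. Let `N ≥ (n + s + e + d + 2) ^ C` and let `F` be a DNF formula with `n` variables and at most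
`s` terms, such that every variable occurs in at most `k` of the terms `t` of length at most
`C log (n + s + e + 2)`. Then for all but a fraction `1 / d` of the samples of `N` points, the
hypothesis which `L` computes from the labelled sample (and from `n`, `s` and `e`) differs from `F`
in at most a fraction `1 / e` of the points of the cube. -/
theorem result (k : ℕ) :
    ∃ (C : ℕ) (L : ℕ × ℕ × ℕ × List (List Bool × Bool) → List (List (ℕ × Bool))),
      PolyFn L ∧
      PolyFn (fun a : List (List (ℕ × Bool)) × List Bool => evalDNF a.1 a.2) ∧
      ∀ n s e d N : ℕ, (n + s + e + d + 2) ^ C ≤ N →
        ∀ F : Finset (Finset (Fin n × Bool)), F.card ≤ s →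
          (∀ i : Fin n, (F.filter (fun t => 2 ^ t.card ≤ (n + s + e + 2) ^ C ∧
            ∃ b, (i, b) ∈ t)).card ≤ k) →
          d * (univ.filter (fun S : Fin N → Fin n → Bool =>
            2 ^ n < e * (univ.filter (fun x : Fin n → Bool =>
              evalDNF (L (n, s, e, sample F S)) (List.ofFn x) ≠ val F x)).card)).card ≤
            2 ^ (n * N) :=
  ⟨Pool.Agent.Helper89_RK.cE k, Pool.Agent.NPC.RK.learn (k + 1),
    Pool.Agent.NPC.RK.poly_learn (k + 1), Pool.Agent.NPC.RK.poly_evalDNF,
    fun _ _ _ _ _ hN _ hs hr => Pool.Agent.Helper89_RK.learn_main hN hs hr⟩

end Pool.Agent.Results.MP_cba12a_lc.ReadKShortTerms
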